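import Pool.Agent.H770R2.Kad.HProps
import Pool.Agent.H710R2.DP.Tasks
import Pool.Agent.H804R2.Kad3.Quot

/-! Task FIB of `h770h_tasks` (helper338): the fibre algebra. -/

open scoped ComplexOrder InnerProductSpace

noncomputable section

namespace H770R2.Kad

open H759R2.Kad

universe u v

namespace FibAux

section a

variable {L : Type} [NormedAddCommGroup L] [InnerProductSpace ℂ L] [CompleteSpace L]
variable {M : VonNeumannAlgebra L} {F : Set M.toStarSubalgebra}

theorem exists_ult (hF : CUlt M F) : ∃ U : Ultrafilter F, ∀ q ∈ F,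
    ∀ᶠ i : F in (U : Filter F), q * (i : M.toStarSubalgebra) = i := by
  have : Nonempty F := ⟨⟨1, hF.one⟩⟩
  let f : F → Filter F := fun q => Filter.principal {i : F | (q : M.toStarSubalgebra) * i = i}
  have hd : Directed (· ≥ ·) f := by
    intro q q'
    have hq := hF.cp q q.2
    have hq' := hF.cp q' q'.2
    refine ⟨⟨q * q', hF.mul _ q.2 _ q'.2⟩, ?_, ?_⟩
    · apply Filter.principal_mono.2
      intro i hi
      have hi' : (q : M.toStarSubalgebra) * q' * i = i := hi
      show (q : M.toStarSubalgebra) * i = i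
      calc (q : M.toStarSubalgebra) * i = q * (q * q' * i) := by rw [hi']
        _ = q * q * q' * i := by simp only [mul_assoc]
        _ = q * q' * i := by rw [hq.2.1]
        _ = i := hi'
    · apply Filter.principal_mono.2
      intro i hi
      have hi' : (q : M.toStarSubalgebra) * q' * i = i := hi
      show (q' : M.toStarSubalgebra) * i = i
      calc (q' : M.toStarSubalgebra) * i = q' * (q * q' * i) := by rw [hi']
        _ = q' * (q' * q * i) := by rw [hq.2.2 (q' : M.toStarSubalgebra)]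
        _ = q' * q' * q * i := by simp only [mul_assoc]
        _ = q' * q * i := by rw [hq'.2.1]
        _ = q * q' * i := by rw [hq.2.2 (q' : M.toStarSubalgebra)]
        _ = i := hi'
  have hb : ∀ q, (f q).NeBot := fun q =>
    Filter.principal_neBot_iff.2 ⟨q, (hF.cp q q.2).2.1⟩
  have : (iInf f).NeBot := Filter.iInf_neBot_of_directed' hd hb
  refine ⟨Ultrafilter.of (iInf f), fun q hq => ?_⟩
  exact (Ultrafilter.of_le (iInf f)).trans (iInf_le f ⟨q, hq⟩) (Filter.mem_principal_self _)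

theorem norm_pr {A : Type*} [CStarAlgebra A] {p : A} (h1 : star p = p) (h2 : p * p = p) :
    ‖p‖ ≤ 1 := by
  have h3 : ‖p‖ * ‖p‖ = ‖p‖ := by
    rw [← CStarRing.norm_star_mul_self, h1, h2]
  by_contra hcon
  push Not at hcon
  nlinarith [norm_nonneg p]

end a

section restr

variable {K0 : Type} [NormedAddCommGroup K0] [InnerProductSpace ℂ K0] [CompleteSpace K0]

/-- the fixed space of a projection -/
def Fx (P : K0 →L[ℂ] K0) : Submodule ℂ K0 := ((P - 1 : K0 →L[ℂ] K0) : K0 →ₗ[ℂ] K0).ker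

theorem mem_Fx {P : K0 →L[ℂ] K0} {x : K0} : x ∈ Fx P ↔ P x = x := by
  unfold Fx
  rw [LinearMap.mem_ker]
  constructor
  · intro h
    have : P x - x = 0 := h
    exact sub_eq_zero.1 this
  · intro h
    show P x - x = 0
    rw [h, sub_self]

instance Fx_complete (P : K0 →L[ℂ] K0) : CompleteSpace (Fx P) :=
  (ContinuousLinearMap.isClosed_ker (P - 1)).completeSpace_coe

/-- restriction to the fixed space -/
def rs (P : K0 →L[ℂ] K0) (T : K0 →L[ℂ] K0) (h : P * T = T) : Fx P →L[ℂ] Fx P :=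
  (T.comp (Fx P).subtypeL).codRestrict (Fx P) (fun x => by
    rw [mem_Fx]
    show P (T x) = T x
    exact congrArg (fun S : K0 →L[ℂ] K0 => S x) h)

theorem rs_apply (P : K0 →L[ℂ] K0) (T : K0 →L[ℂ] K0) (h : P * T = T) (x : Fx P) :
    ((rs P T h x : Fx P) : K0) = T x := rfl

end restr

theorem scal_of_close {K : Type} [NormedAddCommGroup K] [InnerProductSpace ℂ K]
    (b : K →L[ℂ] K)
    (h : ∀ ε : ℝ, 0 < ε → ∃ x : K →L[ℂ] K, (∃ c : ℂ, x = c • 1) ∧ ‖b - x‖ < ε) :
    ∃ c : ℂ, b = c • 1 := by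
  have hclosed : IsClosed (Submodule.span ℂ {(1 : K →L[ℂ] K)} : Set (K →L[ℂ] K)) :=
    Submodule.closed_of_finiteDimensional _
  have hmem : b ∈ closure (Submodule.span ℂ {(1 : K →L[ℂ] K)} : Set (K →L[ℂ] K)) := by
    rw [Metric.mem_closure_iff]
    intro ε hε
    obtain ⟨x, ⟨c, hc⟩, hx⟩ := h ε hε
    refine ⟨x, ?_, ?_⟩
    · rw [hc]
      exact Submodule.smul_mem _ _ (Submodule.mem_span_singleton_self _)
    · rw [dist_eq_norm]
      exact hx
  rw [hclosed.closure_eq] at hmem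
  obtain ⟨c, hc⟩ := Submodule.mem_span_singleton.1 hmem
  exact ⟨c, hc.symm⟩

theorem finish (h3 : G_lift.{0, 0}) {A : Type} [CStarAlgebra A] {K : Type}
    [NormedAddCommGroup K] [InnerProductSpace ℂ K] [CompleteSpace K]
    (ρ : A →⋆ₐ[ℂ] (K →L[ℂ] K)) :
    ∃ (B : Type) (_ : CStarAlgebra B) (φ : A →⋆ₐ[ℂ] B), Function.Surjective φ ∧
      (∀ z, (∃ c : ℂ, ρ z = c • 1) → ∃ c : ℂ, φ z = c • 1) ∧ ∀ a, ‖φ a‖ = ‖ρ a‖ := by
  have hcl : IsClosed (ρ.range : Set (K →L[ℂ] K)) := QuotAux.closed h3 ρ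
  refine ⟨ρ.range, inferInstance, ρ.rangeRestrict, ?_, ?_, ?_⟩
  · rintro ⟨b, a, ha⟩
    exact ⟨a, Subtype.ext ha⟩
  · rintro z ⟨c, hc⟩
    exact ⟨c, Subtype.ext hc⟩
  · intro a
    rfl

end FibAux

open FibAux in
theorem prove_fib (h1 : H_up.{0}) (h2 : H_upalg.{0}) (h3 : G_lift.{0, 0})
    (h4 : H710R2.DP.Z_span) : H_fib := by
  intro L _ _ _ M F hF
  obtain ⟨U, hU⟩ := exists_ult hF
  obtain ⟨K0, i1, i2, i3, Q, O, hUP⟩ := h1 F U L
  obtain ⟨-, u2, u3, u4, -, u6, u7, u8⟩ := h2 F U L K0 Q O hUP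
  -- the families
  let fam : M.toStarSubalgebra → F → (L →L[ℂ] L) := fun a i =>
    (((i : M.toStarSubalgebra) * a : M.toStarSubalgebra) : L →L[ℂ] L)
  have hpn : ∀ p ∈ F, ‖(p : M.toStarSubalgebra)‖ ≤ 1 := fun p hp =>
    norm_pr (hF.cp p hp).1 (hF.cp p hp).2.1
  have hfamn : ∀ a i, ‖fam a i‖ ≤ ‖a‖ := by
    intro a i
    calc ‖fam a i‖ = ‖(i : M.toStarSubalgebra) * a‖ := rfl
      _ ≤ ‖(i : M.toStarSubalgebra)‖ * ‖a‖ := norm_mul_le _ _
      _ ≤ 1 * ‖a‖ := by gcongr; exact hpn _ i.2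
      _ = ‖a‖ := one_mul _
  have hBd : ∀ a, Bd (fam a) := fun a => ⟨‖a‖, hfamn a⟩
  have fadd : ∀ (c : ℂ) a b, fam (c • a + b) = fun i => c • fam a i + fam b i := by
    intro c a b
    funext i
    show (((i : M.toStarSubalgebra) * (c • a + b) : M.toStarSubalgebra) : L →L[ℂ] L) = _
    rw [mul_add, mul_smul_comm]
    rfl
  have fmul : ∀ a b, fam (a * b) = fun i => fam a i * fam b i := by
    intro a b
    funext i
    have hi := hF.cp i i.2
    show (((i : M.toStarSubalgebra) * (a * b) : M.toStarSubalgebra) : L →L[ℂ] L) =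
      (((i : M.toStarSubalgebra) * a * (i * b) : M.toStarSubalgebra) : L →L[ℂ] L)
    congr 1
    calc (i : M.toStarSubalgebra) * (a * b) = i * i * (a * b) := by rw [hi.2.1]
      _ = i * (i * a) * b := by simp only [mul_assoc]
      _ = i * (a * i) * b := by rw [hi.2.2 a]
      _ = i * a * (i * b) := by simp only [mul_assoc]
  have fstar : ∀ a, fam (star a) = fun i => star (fam a i) := by
    intro a
    funext i
    have hi := hF.cp i i.2
    show (((i : M.toStarSubalgebra) * star a : M.toStarSubalgebra) : L →L[ℂ] L) =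
      ((star ((i : M.toStarSubalgebra) * a) : M.toStarSubalgebra) : L →L[ℂ] L)
    rw [star_mul, hi.1, hi.2.2]
  -- the operators
  let Sg : M.toStarSubalgebra → (K0 →L[ℂ] K0) := fun a => O (fam a)
  have Slin : ∀ (c : ℂ) a b, Sg (c • a + b) = c • Sg a + Sg b := by
    intro c a b
    show O (fam (c • a + b)) = _
    rw [fadd]
    exact u2 _ _ c (hBd a) (hBd b)
  have Smul : ∀ a b, Sg (a * b) = Sg a * Sg b := by
    intro a b
    show O (fam (a * b)) = _
    rw [fmul]
    exact u3 _ _ (hBd a) (hBd b)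
  have Sstar : ∀ a, Sg (star a) = star (Sg a) := by
    intro a
    show O (fam (star a)) = _
    rw [fstar]
    exact u4 _ (hBd a)
  have Szero : Sg 0 = 0 := by
    have := Slin 1 0 0
    rw [smul_zero, add_zero, one_smul] at this
    exact (add_eq_left.1 this.symm)
  have Sadd : ∀ a b, Sg (a + b) = Sg a + Sg b := by
    intro a b
    have := Slin 1 a b
    rwa [one_smul, one_smul] at this
  have Ssmul : ∀ (c : ℂ) a, Sg (c • a) = c • Sg a := by
    intro c a
    have := Slin c a 0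
    rwa [add_zero, Szero, add_zero] at this
  set P : K0 →L[ℂ] K0 := Sg 1 with hP
  have hPS : ∀ a, P * Sg a = Sg a := fun a => by rw [hP, ← Smul, one_mul]
  have hSP : ∀ a, Sg a * P = Sg a := fun a => by rw [hP, ← Smul, mul_one]
  have hPn : ‖P‖ ≤ 1 := u7 (fam 1) 1 zero_le_one (hBd 1) (Filter.Eventually.of_forall fun i => by
    calc ‖fam 1 i‖ = ‖(i : M.toStarSubalgebra) * 1‖ := rfl
      _ = ‖(i : M.toStarSubalgebra)‖ := by rw [mul_one]
      _ ≤ 1 := hpn _ i.2)
  have hnorm : ∀ (a : M.toStarSubalgebra) (r : ℝ), (∀ p ∈ F, r ≤ ‖p * a‖) → r ≤ ‖Sg a‖ := by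
    intro a r hr
    exact u8 (fam a) r (hBd a) (Filter.Eventually.of_forall fun i => hr i i.2)
  -- the representation
  let ρ : M.toStarSubalgebra →⋆ₐ[ℂ] (Fx P →L[ℂ] Fx P) :=
    { toFun := fun a => rs P (Sg a) (hPS a)
      map_one' := by
        ext x
        rw [rs_apply]
        exact mem_Fx.1 x.2
      map_mul' := fun a b => by
        ext x
        show (Sg (a * b)) x = Sg a (Sg b x)
        rw [Smul]; rfl
      map_zero' := by
        ext x
        show (Sg 0) x = 0
        rw [Szero]; rfl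
      map_add' := fun a b => by
        ext x
        show (Sg (a + b)) x = Sg a x + Sg b x
        rw [Sadd]; rfl
      commutes' := fun c => by
        ext x
        show (Sg (algebraMap ℂ M.toStarSubalgebra c)) (x : K0) =
          (((algebraMap ℂ (Fx P →L[ℂ] Fx P) c) x : Fx P) : K0)
        rw [Algebra.algebraMap_eq_smul_one, Algebra.algebraMap_eq_smul_one, Ssmul]
        show c • (P (x : K0)) = c • (x : K0)
        rw [mem_Fx.1 x.2]
      map_star' := fun a => by
        show rs P (Sg (star a)) (hPS (star a)) = ContinuousLinearMap.adjoint (rs P (Sg a) (hPS a))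
        rw [ContinuousLinearMap.eq_adjoint_iff]
        intro x y
        show ⟪(Sg (star a)) (x : K0), (y : K0)⟫_ℂ = ⟪(x : K0), Sg a (y : K0)⟫_ℂ
        rw [Sstar]
        exact ContinuousLinearMap.adjoint_inner_left _ _ _ }
  have hρv : ∀ a (x : Fx P), ((ρ a x : Fx P) : K0) = Sg a x := fun a x => rfl
  have hρn : ∀ a, ‖Sg a‖ ≤ ‖ρ a‖ := by
    intro a
    refine ContinuousLinearMap.opNorm_le_bound _ (norm_nonneg (ρ a)) (fun x => ?_)
    have hx : P x ∈ Fx P := by
      rw [mem_Fx]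
      have h5 : P * P = P := hPS 1
      exact congrArg (fun S : K0 →L[ℂ] K0 => S x) h5
    have h6 : Sg a x = Sg a (P x) := by
      conv_lhs => rw [← hSP a]
      rfl
    calc ‖Sg a x‖ = ‖ρ a ⟨P x, hx⟩‖ := by rw [h6]; rfl
      _ ≤ ‖ρ a‖ * ‖(⟨P x, hx⟩ : Fx P)‖ := (ρ a).le_opNorm _
      _ ≤ ‖ρ a‖ * ‖x‖ := by
        gcongr
        show ‖P x‖ ≤ ‖x‖
        calc ‖P x‖ ≤ ‖P‖ * ‖x‖ := P.le_opNorm x
          _ ≤ 1 * ‖x‖ := by gcongr
          _ = ‖x‖ := one_mul _
  obtain ⟨B, iB, φ, hφs, hφc, hφn⟩ := finish (A := M.toStarSubalgebra) (K := Fx P) h3 ρ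
  refine ⟨B, iB, φ, hφs, ?_, ?_⟩
  · -- central elements
    intro z hz
    apply hφc
    have hproj : ∀ q : M.toStarSubalgebra, CP M q → ∃ s : ℂ, ρ q = s • 1 := by
      intro q hq
      rcases hF.em q hq with hqF | hqF
      · refine ⟨1, ?_⟩
        have h5 : Sg q = Sg 1 := by
          refine u6 _ _ (hBd q) (hBd 1) ?_
          filter_upwards [hU q hqF] with i hi
          show (((i : M.toStarSubalgebra) * q : M.toStarSubalgebra) : L →L[ℂ] L) =
            (((i : M.toStarSubalgebra) * 1 : M.toStarSubalgebra) : L →L[ℂ] L)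
          rw [← hq.2.2, hi, mul_one]
        rw [one_smul]
        ext x
        rw [hρv, h5]
        exact mem_Fx.1 x.2
      · refine ⟨0, ?_⟩
        have h5 : Sg q = Sg 0 := by
          refine u6 _ _ (hBd q) (hBd 0) ?_
          filter_upwards [hU _ hqF] with i hi
          show (((i : M.toStarSubalgebra) * q : M.toStarSubalgebra) : L →L[ℂ] L) =
            (((i : M.toStarSubalgebra) * 0 : M.toStarSubalgebra) : L →L[ℂ] L)
          rw [sub_mul, one_mul, sub_eq_self] at hi
          rw [← hq.2.2, hi, mul_zero]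
        have h6 : ρ q = 0 := by
          ext x
          rw [hρv, h5, Szero]
          rfl
        rw [h6]
        exact (zero_smul ℂ (1 : Fx P →L[ℂ] Fx P)).symm
    have hzc : H710R2.DP.IsCen M (z : L →L[ℂ] L) := by
      refine ⟨z.2, fun a ha => ?_⟩
      exact congrArg (fun y : M.toStarSubalgebra => (y : L →L[ℂ] L)) (hz ⟨a, ha⟩)
    refine scal_of_close (K := Fx P) (ρ z) (fun ε hε => ?_)
    obtain ⟨n, c, p, hp, hnp⟩ := h4 L M z hzc (ε / 2) (by positivity)
    let p' : Fin n → M.toStarSubalgebra := fun k => ⟨p k, (hp k).2.1⟩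
    have hp' : ∀ k, CP M (p' k) := by
      intro k
      refine ⟨Subtype.ext (hp k).1.1, Subtype.ext (hp k).1.2, fun a => Subtype.ext ?_⟩
      exact (hp k).2.2 a a.2
    choose s hs using fun k => hproj (p' k) (hp' k)
    have h5 : ρ (∑ k, c k • p' k) = ∑ k, c k • ρ (p' k) := by
      rw [map_sum]
      exact Finset.sum_congr rfl (fun k _ => map_smul ρ (c k) (p' k))
    refine ⟨ρ (∑ k, c k • p' k), ⟨∑ k, c k * s k, ?_⟩, ?_⟩
    · rw [h5, Finset.sum_smul]
      refine Finset.sum_congr rfl (fun k _ => ?_)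
      rw [hs k, smul_smul]
    · have h6 : ρ z - ρ (∑ k, c k • p' k) = ρ (z - ∑ k, c k • p' k) := (map_sub ρ _ _).symm
      rw [h6]
      calc ‖ρ (z - ∑ k, c k • p' k)‖ ≤ ‖z - ∑ k, c k • p' k‖ :=
            NonUnitalStarAlgHom.norm_apply_le ρ _
        _ = ‖(z : L →L[ℂ] L) - ∑ k, c k • p k‖ := by
            have h7 : ((∑ k, c k • p' k : M.toStarSubalgebra) : L →L[ℂ] L) =
                ∑ k, c k • p k := by
              rw [AddSubmonoidClass.coe_finsetSum]
              rfl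
            show ‖(z : L →L[ℂ] L) - ((∑ k, c k • p' k : M.toStarSubalgebra) : L →L[ℂ] L)‖ = _
            rw [h7]
        _ ≤ ε / 2 := hnp
        _ < ε := by linarith
  · intro a r hr
    rw [hφn]
    exact (hnorm a r hr).trans (hρn a)

end H770R2.Kad
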