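import Mathlib
import Pool.Agent.H744R2.KZ.Props

/-! KZ project (helper744), task Y_hb (helper338): Hahn-Banach, no tracial state. -/

open scoped ComplexOrder InnerProductSpace ComplexConjugate Topology
open Finset Filter

namespace H744R2.KZ

open H759R2.Kad

universe u

namespace Yhbaux

variable {B : Type u} [CStarAlgebra B]

/-- differences of sums of squares -/
def Df (a : B) : Prop := ∃ (m : ℕ) (x : Fin m → B),
  a = ∑ j, star (x j) * x j - ∑ j, x j * star (x j)

theorem Df_sq (x : B) : Df (star x * x - x * star x) := ⟨1, fun _ => x, by simp⟩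

theorem Df_zero : Df (0 : B) := ⟨0, fun _ => 0, by simp⟩

theorem Df_add {a b : B} (ha : Df a) (hb : Df b) : Df (a + b) := by
  obtain ⟨m, x, rfl⟩ := ha
  obtain ⟨n, y, rfl⟩ := hb
  refine ⟨m + n, Fin.append x y, ?_⟩
  simp only [Fin.sum_univ_add, Fin.append_left, Fin.append_right]
  abel

theorem Df_neg {a : B} (ha : Df a) : Df (-a) := by
  obtain ⟨m, x, rfl⟩ := ha
  refine ⟨m, fun j => star (x j), ?_⟩
  simp

theorem smul_sq {r : ℝ} (hr : 0 ≤ r) (x : B) :
    star (Real.sqrt r • x) * (Real.sqrt r • x) = r • (star x * x) := by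
  rw [star_smul, star_trivial, smul_mul_smul_comm, Real.mul_self_sqrt hr]

theorem smul_sq' {r : ℝ} (hr : 0 ≤ r) (x : B) :
    (Real.sqrt r • x) * star (Real.sqrt r • x) = r • (x * star x) := by
  rw [star_smul, star_trivial, smul_mul_smul_comm, Real.mul_self_sqrt hr]

theorem Df_smul_nonneg {a : B} (ha : Df a) {r : ℝ} (hr : 0 ≤ r) : Df (r • a) := by
  obtain ⟨m, x, rfl⟩ := ha
  refine ⟨m, fun j => Real.sqrt r • x j, ?_⟩
  simp only [smul_sq hr, smul_sq' hr, smul_sub, Finset.smul_sum]

theorem Df_smul {a : B} (ha : Df a) (r : ℝ) : Df (r • a) := by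
  rcases le_total 0 r with h | h
  · exact Df_smul_nonneg ha h
  · have := Df_neg (Df_smul_nonneg ha (neg_nonneg.2 h))
    simpa using this

theorem Df_sa {a : B} (ha : Df a) : IsSelfAdjoint a := by
  obtain ⟨m, x, rfl⟩ := ha
  refine IsSelfAdjoint.sub ?_ ?_
  · exact isSelfAdjoint_sum _ (fun j _ => IsSelfAdjoint.star_mul_self _)
  · exact isSelfAdjoint_sum _ (fun j _ => IsSelfAdjoint.mul_star_self _)

/-- the tracial functional -/
theorem exists_trace (g : B →L[ℝ] ℝ) (h1 : 0 < g 1) (hV : ∀ x : B, g (star x * x) = g (x * star x))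
    (hp : ∀ x : B, 0 ≤ g (star x * x)) : ∃ τ : B →ₗ[ℂ] ℂ, IsTracialState τ := by
  let sr : B →ₗ[ℝ] B :=
    { toFun := fun a => (2 : ℝ)⁻¹ • (a + star a)
      map_add' := fun a b => by rw [star_add]; module
      map_smul' := fun r a => by rw [star_smul, star_trivial, RingHom.id_apply]; module }
  have hsr : ∀ a, sr a = (2 : ℝ)⁻¹ • (a + star a) := fun a => rfl
  let h : Module.Dual ℝ B := (g : B →ₗ[ℝ] ℝ).comp sr
  have hh : ∀ a, h a = g (sr a) := fun a => rfl
  let τ0 : B →ₗ[ℂ] ℂ := Module.Dual.extendRCLike (𝕜 := ℂ) h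
  have hτ0 : ∀ a, τ0 a = (h a : ℂ) - Complex.I * (h (Complex.I • a) : ℂ) := fun a => rfl
  have hsa : ∀ a : B, IsSelfAdjoint a → τ0 a = (g a : ℂ) := by
    intro a ha
    have e1 : sr a = a := by
      rw [hsr, ha.star_eq, ← two_smul ℝ a, smul_smul]
      norm_num
    have e2 : sr (Complex.I • a) = 0 := by
      rw [hsr, star_smul, ha.star_eq]
      have : star Complex.I = -Complex.I := Complex.conj_I
      rw [this, neg_smul, add_neg_cancel, smul_zero]
    rw [hτ0, hh, hh, e1, e2, map_zero]
    simp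
  have hone : τ0 1 = (g 1 : ℂ) := hsa 1 (IsSelfAdjoint.one B)
  have hg1 : (g 1 : ℂ) ≠ 0 := by exact_mod_cast h1.ne'
  have key : ∀ x : B, τ0 (star x * x) = τ0 (x * star x) := by
    intro x
    rw [hsa _ (IsSelfAdjoint.star_mul_self x), hsa _ (IsSelfAdjoint.mul_star_self x), hV]
  have comm' : ∀ a b : B, τ0 (star a * b) = τ0 (b * star a) := by
    intro a b
    have k1 := key (a + b)
    have k2 := key (a + Complex.I • b)
    have ka := key a
    have kb := key b
    have hI : star Complex.I = -Complex.I := Complex.conj_I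
    simp only [star_add, star_smul, hI, add_mul, mul_add, smul_mul_assoc, mul_smul_comm, map_add,
      map_smul, smul_eq_mul, neg_smul, map_neg, neg_mul, mul_neg, smul_neg] at k1 k2
    have k3 : Complex.I * (τ0 (star a * b) - τ0 (star b * a)) =
        Complex.I * (τ0 (b * star a) - τ0 (a * star b)) := by
      have hII : Complex.I * Complex.I = -1 := Complex.I_mul_I
      linear_combination k2 - ka + (Complex.I * Complex.I) * kb
    have k4 := mul_left_cancel₀ Complex.I_ne_zero k3
    have k5 : (2 : ℂ) * τ0 (star a * b) = 2 * τ0 (b * star a) := by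
      linear_combination k1 - ka - kb + k4
    exact mul_left_cancel₀ two_ne_zero k5
  refine ⟨(g 1 : ℂ)⁻¹ • τ0, ?_, ?_, ?_⟩
  · rw [LinearMap.smul_apply, hone, smul_eq_mul, inv_mul_cancel₀ hg1]
  · intro a
    rw [LinearMap.smul_apply, hsa _ (IsSelfAdjoint.star_mul_self a), smul_eq_mul,
      ← Complex.ofReal_inv, ← Complex.ofReal_mul, Complex.zero_le_real]
    exact mul_nonneg (inv_nonneg.2 h1.le) (hp a)
  · intro a b
    rw [LinearMap.smul_apply, LinearMap.smul_apply]
    congr 1
    have := comm' (star a) b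
    rwa [star_star] at this

end Yhbaux

open Yhbaux in
theorem prove_Y_hb : Y_hb.{u} := by
  intro B _ _ _ hno
  by_contra hcon
  apply hno
  -- the subspace
  let V : Submodule ℝ B :=
    { carrier := {a | Df a}
      add_mem' := fun ha hb => Df_add ha hb
      zero_mem' := Df_zero
      smul_mem' := fun r _ ha => Df_smul ha r }
  have hVm : ∀ a, a ∈ V ↔ Df a := fun a => Iff.rfl
  have hdisj : Disjoint (Metric.ball (1 : B) 1) (V : Set B) := by
    rw [Set.disjoint_left]
    intro a ha haV
    apply hcon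
    rw [Metric.mem_ball, dist_eq_norm] at ha
    have hsa : IsSelfAdjoint a := Df_sa haV
    obtain ⟨m, x, hx⟩ := (hVm a).1 haV
    set η := 1 - ‖a - 1‖ with hη
    have hη0 : 0 < η := by rw [hη]; linarith
    have hge : algebraMap ℝ B η ≤ a := by
      have h1 := (hsa.sub (IsSelfAdjoint.one B)).neg_algebraMap_norm_le_self
      have h2 : algebraMap ℝ B η = 1 + -algebraMap ℝ B ‖a - 1‖ := by
        rw [hη, map_sub, map_one]; abel
      rw [h2]
      calc 1 + -algebraMap ℝ B ‖a - 1‖ ≤ 1 + (a - 1) := by gcongr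
        _ = a := by abel
    refine ⟨m, fun j => Real.sqrt η⁻¹ • x j, ?_⟩
    have hηi : 0 ≤ η⁻¹ := inv_nonneg.2 hη0.le
    simp only [smul_sq hηi, smul_sq' hηi, ← Finset.smul_sum]
    have h3 : (1 : B) ≤ η⁻¹ • a := by
      have h4 : η⁻¹ • algebraMap ℝ B η ≤ η⁻¹ • a := smul_le_smul_of_nonneg_left hge hηi
      have h5 : η⁻¹ • algebraMap ℝ B η = 1 := by
        rw [Algebra.algebraMap_eq_smul_one, smul_smul, inv_mul_cancel₀ hη0.ne', one_smul]
      rwa [h5] at h4
    rw [hx, smul_sub] at h3
    exact le_sub_iff_add_le.1 h3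
  obtain ⟨f, u, hf1, hf2⟩ := geometric_hahn_banach_open (convex_ball (1 : B) 1)
    Metric.isOpen_ball V.convex hdisj
  have hfV : ∀ a ∈ V, f a = 0 := by
    intro a ha
    by_contra hne
    have h1 := hf2 (((u - 1) / f a) • a) (V.smul_mem _ ha)
    rw [map_smul, smul_eq_mul, div_mul_cancel₀ _ hne] at h1
    linarith
  have hu : u ≤ 0 := by
    have := hf2 0 V.zero_mem
    simpa using this
  have hgU : ∀ a ∈ Metric.ball (1 : B) 1, 0 < (-f) a := by
    intro a ha
    have := hf1 a ha
    rw [neg_apply]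
    linarith
  have hpos : ∀ a : B, 0 ≤ a → 0 ≤ (-f) a := by
    intro a ha
    have hall : ∀ δ : ℝ, 0 < δ → 0 < (-f) a + δ * (-f) 1 := by
      intro δ hδ
      set s := (‖a‖ + δ)⁻¹ with hs
      have hs0 : 0 < s := by rw [hs]; positivity
      have hmem : s • (a + δ • (1 : B)) ∈ Metric.ball (1 : B) 1 := by
        rw [Metric.mem_ball, dist_comm, dist_eq_norm]
        have hb0 : 0 ≤ 1 - s • (a + δ • (1 : B)) := by
          have h1 : a ≤ algebraMap ℝ B ‖a‖ := (IsSelfAdjoint.of_nonneg ha).le_algebraMap_norm_self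
          have h2 : a + δ • (1 : B) ≤ (‖a‖ + δ) • (1 : B) := by
            rw [add_smul, ← Algebra.algebraMap_eq_smul_one (‖a‖)]
            gcongr
          have h3 : s • (a + δ • (1 : B)) ≤ s • ((‖a‖ + δ) • (1 : B)) :=
            smul_le_smul_of_nonneg_left h2 hs0.le
          rw [smul_smul, hs, inv_mul_cancel₀ (by positivity), one_smul] at h3
          rw [hs]
          exact sub_nonneg.2 h3
        have hle : 1 - s • (a + δ • (1 : B)) ≤ algebraMap ℝ B (1 - s * δ) := by
          rw [map_sub, map_one, smul_add, smul_smul, Algebra.algebraMap_eq_smul_one (s * δ)]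
          have h4 : 0 ≤ s • a := smul_nonneg hs0.le ha
          calc 1 - (s • a + (s * δ) • (1 : B)) = (1 - (s * δ) • (1 : B)) - s • a := by abel
            _ ≤ 1 - (s * δ) • (1 : B) := sub_le_self _ h4
        have hsd : s * δ ≤ 1 := by
          rw [hs, inv_mul_le_iff₀ (by positivity)]
          linarith [norm_nonneg a]
        have hn := (CStarAlgebra.norm_le_iff_le_algebraMap (1 - s • (a + δ • (1 : B)))
          (by linarith : 0 ≤ 1 - s * δ) hb0).2 hle
        have : 0 < s * δ := by positivity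
        linarith
      have h5 := hgU _ hmem
      rw [map_smul, map_add, map_smul, smul_eq_mul, smul_eq_mul] at h5
      exact (pos_iff_pos_of_mul_pos h5).1 hs0
    by_contra hneg
    push Not at hneg
    have h1pos : 0 < (-f) 1 := hgU 1 (Metric.mem_ball_self one_pos)
    have := hall (-((-f) a) / (-f) 1) (div_pos (by linarith) h1pos)
    rw [div_mul_cancel₀ _ h1pos.ne'] at this
    linarith
  refine exists_trace (-f) (hgU 1 (Metric.mem_ball_self one_pos)) ?_
    (fun x => hpos _ (star_mul_self_nonneg x))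
  intro x
  have h1 := hfV _ ((hVm _).2 (Df_sq x))
  rw [map_sub, sub_eq_zero] at h1
  rw [neg_apply, neg_apply, h1]

end H744R2.KZ
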